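import Mathlib

/-!
The kernel `1 / cosh (π y / W)` and the inequality between the value at the centre of a strip and the
values on the two lines.
-/

set_option autoImplicit false

open MeasureTheory Set Filter Topology

namespace Pool.Agent.N907.SC

theorem cosh_lower (a : ℝ) (ha : 0 < a) (y : ℝ) :
    (1 + |y|) ^ 3 ≤ (12 * Real.exp a / a ^ 3) * Real.cosh (a * y) := by
  have h1 : (a * (1 + |y|)) ^ 3 / (Nat.factorial 3 : ℝ) ≤ Real.exp (a * (1 + |y|)) :=
    Real.pow_div_factorial_le_exp _ (by positivity) 3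
  have h2 : Real.exp (a * |y|) ≤ 2 * Real.cosh (a * y) := by
    rw [← Real.cosh_abs (a * y), abs_mul, abs_of_pos ha, Real.cosh_eq]
    have := Real.exp_pos (-(a * |y|))
    linarith
  have h3 : Real.exp (a * (1 + |y|)) = Real.exp a * Real.exp (a * |y|) := by
    rw [← Real.exp_add]; ring_nf
  have h4 : (Nat.factorial 3 : ℝ) = 6 := by norm_num [Nat.factorial]
  rw [h3, h4, div_le_iff₀ (by norm_num), mul_pow] at h1
  have ha3 : 0 < a ^ 3 := by positivity
  rw [div_mul_eq_mul_div, le_div_iff₀ ha3]
  have h5 := Real.exp_pos a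
  calc (1 + |y|) ^ 3 * a ^ 3 = a ^ 3 * (1 + |y|) ^ 3 := by ring
    _ ≤ Real.exp a * Real.exp (a * |y|) * 6 := h1
    _ ≤ Real.exp a * (2 * Real.cosh (a * y)) * 6 := by gcongr
    _ = 12 * Real.exp a * Real.cosh (a * y) := by ring

theorem int_lin {a : ℝ} (ha : 0 < a) : Integrable fun y : ℝ => (1 + |y|) / Real.cosh (a * y) := by
  have h1 : Integrable fun y : ℝ => (12 * Real.exp a / a ^ 3) * (1 + y ^ 2)⁻¹ :=
    integrable_inv_one_add_sq.const_mul _
  refine h1.mono' ?_ ?_
  · apply Continuous.aestronglyMeasurable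
    refine Continuous.div (by fun_prop) (by fun_prop) fun y => (Real.cosh_pos _).ne'
  · refine Eventually.of_forall fun y => ?_
    have h2 := cosh_lower a ha y
    have h3 := Real.cosh_pos (a * y)
    have h4 : 0 ≤ |y| := abs_nonneg y
    have h5 : 1 + y ^ 2 ≤ (1 + |y|) ^ 2 := by
      nlinarith [sq_abs y]
    rw [Real.norm_eq_abs, abs_of_nonneg (by positivity), div_le_iff₀ h3]
    have h6 : 0 < 1 + y ^ 2 := by positivity
    rw [mul_comm (12 * Real.exp a / a ^ 3), mul_assoc, inv_mul_eq_div, le_div_iff₀ h6]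
    calc (1 + |y|) * (1 + y ^ 2) ≤ (1 + |y|) * (1 + |y|) ^ 2 := by gcongr
      _ = (1 + |y|) ^ 3 := by ring
      _ ≤ _ := h2

theorem int_log {a : ℝ} (ha : 0 < a) :
    Integrable fun y : ℝ => Real.log (1 + |y|) / Real.cosh (a * y) := by
  refine (int_lin ha).mono' ?_ ?_
  · apply Continuous.aestronglyMeasurable
    refine Continuous.div ?_ (by fun_prop) fun y => (Real.cosh_pos _).ne'
    refine Continuous.log (by fun_prop) fun y => ?_
    have := abs_nonneg y
    positivity
  · refine Eventually.of_forall fun y => ?_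
    have h4 : 0 ≤ |y| := abs_nonneg y
    have h0 : 0 ≤ Real.log (1 + |y|) := Real.log_nonneg (by linarith)
    have h3 := Real.cosh_pos (a * y)
    rw [Real.norm_eq_abs, abs_of_nonneg (by positivity)]
    have h5 := Real.log_le_sub_one_of_pos (show 0 < 1 + |y| by positivity)
    gcongr
    linarith

theorem int_one {a : ℝ} (ha : 0 < a) : Integrable fun y : ℝ => 1 / Real.cosh (a * y) := by
  refine (int_lin ha).mono' ?_ ?_
  · apply Continuous.aestronglyMeasurable
    exact Continuous.div (by fun_prop) (by fun_prop) fun y => (Real.cosh_pos _).ne'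
  · refine Eventually.of_forall fun y => ?_
    have h4 : 0 ≤ |y| := abs_nonneg y
    have h3 := Real.cosh_pos (a * y)
    rw [Real.norm_eq_abs, abs_of_nonneg (by positivity)]
    gcongr
    linarith

theorem integral_one {W : ℝ} (hW : 0 < W) : ∫ y : ℝ, 1 / Real.cosh (Real.pi * y / W) = W := by
  have hpi := Real.pi_pos
  have ha : 0 < Real.pi / W := by positivity
  have hd : ∀ y : ℝ, HasDerivAt (fun y : ℝ => 2 * W / Real.pi * Real.arctan (Real.exp (Real.pi / W * y)))
      (1 / Real.cosh (Real.pi / W * y)) y := by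
    intro y
    have h1 : HasDerivAt (fun y : ℝ => Real.exp (Real.pi / W * y))
        (Real.exp (Real.pi / W * y) * (Real.pi / W)) y := by
      have := ((hasDerivAt_id y).const_mul (Real.pi / W)).exp
      simpa using this
    have h2 := (h1.arctan).const_mul (2 * W / Real.pi)
    refine h2.congr_deriv ?_
    rw [Real.cosh_eq, Real.exp_neg]
    have h3 := Real.exp_pos (Real.pi / W * y)
    field_simp
    ring
  have hbot : Tendsto (fun y : ℝ => 2 * W / Real.pi * Real.arctan (Real.exp (Real.pi / W * y))) atBot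
      (𝓝 (2 * W / Real.pi * 0)) := by
    apply Tendsto.const_mul
    have h1 : Tendsto (fun y : ℝ => Real.exp (Real.pi / W * y)) atBot (𝓝 0) :=
      Real.tendsto_exp_atBot.comp (tendsto_id.const_mul_atBot ha)
    have h2 := (Real.continuous_arctan.tendsto 0).comp h1
    rwa [Real.arctan_zero] at h2
  have htop : Tendsto (fun y : ℝ => 2 * W / Real.pi * Real.arctan (Real.exp (Real.pi / W * y))) atTop
      (𝓝 (2 * W / Real.pi * (Real.pi / 2))) := by
    apply Tendsto.const_mul
    have h1 : Tendsto (fun y : ℝ => Real.exp (Real.pi / W * y)) atTop atTop :=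
      Real.tendsto_exp_atTop.comp (tendsto_id.const_mul_atTop ha)
    exact (tendsto_nhds_of_tendsto_nhdsWithin Real.tendsto_arctan_atTop).comp h1
  have h := integral_of_hasDerivAt_of_tendsto hd (int_one ha) hbot htop
  have e : (fun y : ℝ => 1 / Real.cosh (Real.pi * y / W)) = fun y => 1 / Real.cosh (Real.pi / W * y) := by
    funext y
    congr 2
    ring
  rw [e, h]
  field_simp
  ring

/-- the constant of the kernel -/
noncomputable def K0 (W : ℝ) : ℝ := ∫ y : ℝ, Real.log (1 + |y|) / Real.cosh (Real.pi * y / W)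

theorem main_ineq {W : ℝ} (hW : 1 / 2 ≤ W) (hW1 : W ≤ 1) {g₁ g₂ : ℝ → ℝ} {V a b p q : ℝ}
    (h1 : Integrable fun y : ℝ => g₁ y / Real.cosh (Real.pi * y / W))
    (h2 : Integrable fun y : ℝ => g₂ y / Real.cosh (Real.pi * y / W))
    (hV : V ≤ 1 / (2 * W) * ∫ y : ℝ, (g₁ y + g₂ y) / Real.cosh (Real.pi * y / W))
    (hg1 : ∀ y, g₁ y ≤ a + p * Real.log (1 + |y|)) (hg2 : ∀ y, g₂ y ≤ b + q * Real.log (1 + |y|)) :
    V ≤ (a + b) / 2 + (p + q) * K0 W / (2 * W) ∧
    ∀ α : ℝ, -2 ≤ α → α ≤ 0 → IntervalIntegrable g₁ volume α (α + 2) ∧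
      V ≤ (a + b) / 2 + (p + q) * K0 W / (2 * W) - 1 / (2 * Real.cosh (4 * Real.pi)) *
        ∫ y in α..(α + 2), (a + p * Real.log (1 + |y|) - g₁ y) := by
  have hpi := Real.pi_pos
  have hW0 : 0 < W := by linarith
  have ha : 0 < Real.pi / W := by positivity
  have ec : ∀ y : ℝ, Real.pi / W * y = Real.pi * y / W := fun y => by ring
  have i1 : Integrable fun y : ℝ => 1 / Real.cosh (Real.pi * y / W) := by
    have := int_one ha
    simpa only [ec] using this
  have i2 : Integrable fun y : ℝ => Real.log (1 + |y|) / Real.cosh (Real.pi * y / W) := by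
    have := int_log ha
    simpa only [ec] using this
  have hk : ∀ y : ℝ, 0 < Real.cosh (Real.pi * y / W) := fun y => Real.cosh_pos _
  have iu : ∀ c d : ℝ, Integrable fun y : ℝ =>
      (c + d * Real.log (1 + |y|)) / Real.cosh (Real.pi * y / W) := by
    intro c d
    have := (i1.const_mul c).add (i2.const_mul d)
    refine this.congr (Eventually.of_forall fun y => ?_)
    simp only [Pi.add_apply]
    have := hk y
    field_simp
  have iuint : ∀ c d : ℝ, ∫ y : ℝ, (c + d * Real.log (1 + |y|)) / Real.cosh (Real.pi * y / W) =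
      c * W + d * K0 W := by
    intro c d
    have e : (fun y : ℝ => (c + d * Real.log (1 + |y|)) / Real.cosh (Real.pi * y / W)) =
        fun y => c * (1 / Real.cosh (Real.pi * y / W)) +
          d * (Real.log (1 + |y|) / Real.cosh (Real.pi * y / W)) := by
      funext y
      have := hk y
      field_simp
    rw [e, integral_add (i1.const_mul c) (i2.const_mul d), integral_const_mul, integral_const_mul,
      integral_one hW0]
    rfl
  -- the nonnegative defects
  have iw1 : Integrable fun y : ℝ =>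
      (a + p * Real.log (1 + |y|) - g₁ y) / Real.cosh (Real.pi * y / W) := by
    refine ((iu a p).sub h1).congr (Eventually.of_forall fun y => ?_)
    simp only [Pi.sub_apply]
    rw [sub_div]
  have iw2 : Integrable fun y : ℝ =>
      (b + q * Real.log (1 + |y|) - g₂ y) / Real.cosh (Real.pi * y / W) := by
    refine ((iu b q).sub h2).congr (Eventually.of_forall fun y => ?_)
    simp only [Pi.sub_apply]
    rw [sub_div]
  have hw1 : ∀ y, 0 ≤ (a + p * Real.log (1 + |y|) - g₁ y) / Real.cosh (Real.pi * y / W) := fun y =>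
    div_nonneg (by linarith [hg1 y]) (hk y).le
  have hw2 : ∀ y, 0 ≤ (b + q * Real.log (1 + |y|) - g₂ y) / Real.cosh (Real.pi * y / W) := fun y =>
    div_nonneg (by linarith [hg2 y]) (hk y).le
  have hsum : ∫ y : ℝ, (g₁ y + g₂ y) / Real.cosh (Real.pi * y / W) =
      ((a + b) * W + (p + q) * K0 W) -
      (∫ y : ℝ, (a + p * Real.log (1 + |y|) - g₁ y) / Real.cosh (Real.pi * y / W)) -
      ∫ y : ℝ, (b + q * Real.log (1 + |y|) - g₂ y) / Real.cosh (Real.pi * y / W) := by
    have s1 : ∫ y : ℝ, ((a + b + (p + q) * Real.log (1 + |y|)) / Real.cosh (Real.pi * y / W) -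
        (a + p * Real.log (1 + |y|) - g₁ y) / Real.cosh (Real.pi * y / W)) =
        (∫ y : ℝ, (a + b + (p + q) * Real.log (1 + |y|)) / Real.cosh (Real.pi * y / W)) -
        ∫ y : ℝ, (a + p * Real.log (1 + |y|) - g₁ y) / Real.cosh (Real.pi * y / W) :=
      integral_sub (iu (a + b) (p + q)) iw1
    have s2 : ∫ y : ℝ, ((a + b + (p + q) * Real.log (1 + |y|)) / Real.cosh (Real.pi * y / W) -
        (a + p * Real.log (1 + |y|) - g₁ y) / Real.cosh (Real.pi * y / W) -
        (b + q * Real.log (1 + |y|) - g₂ y) / Real.cosh (Real.pi * y / W)) =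
        (∫ y : ℝ, ((a + b + (p + q) * Real.log (1 + |y|)) / Real.cosh (Real.pi * y / W) -
        (a + p * Real.log (1 + |y|) - g₁ y) / Real.cosh (Real.pi * y / W))) -
        ∫ y : ℝ, (b + q * Real.log (1 + |y|) - g₂ y) / Real.cosh (Real.pi * y / W) :=
      integral_sub ((iu (a + b) (p + q)).sub iw1) iw2
    rw [← iuint (a + b) (p + q), ← s1, ← s2]
    apply integral_congr_ae
    refine Eventually.of_forall fun y => ?_
    have := hk y
    simp only
    field_simp
    ring
  have n1 : 0 ≤ ∫ y : ℝ, (a + p * Real.log (1 + |y|) - g₁ y) / Real.cosh (Real.pi * y / W) :=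
    integral_nonneg hw1
  have n2 : 0 ≤ ∫ y : ℝ, (b + q * Real.log (1 + |y|) - g₂ y) / Real.cosh (Real.pi * y / W) :=
    integral_nonneg hw2
  have hinv : 0 < 1 / (2 * W) := by positivity
  have e0 : 1 / (2 * W) * ((a + b) * W + (p + q) * K0 W) =
      (a + b) / 2 + (p + q) * K0 W / (2 * W) := by
    field_simp
  have hV1 : V ≤ (a + b) / 2 + (p + q) * K0 W / (2 * W) - 1 / (2 * W) *
      ∫ y : ℝ, (a + p * Real.log (1 + |y|) - g₁ y) / Real.cosh (Real.pi * y / W) := by
    rw [hsum] at hV
    rw [← e0]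
    have := mul_nonneg hinv.le n2
    linarith [hV]
  refine ⟨?_, ?_⟩
  · have := mul_nonneg hinv.le n1
    linarith
  · intro α hα1 hα2
    have hcg : Continuous fun y : ℝ => Real.cosh (Real.pi * y / W) := by fun_prop
    have ig : IntervalIntegrable g₁ volume α (α + 2) := by
      have h3 := (h1.intervalIntegrable (a := α) (b := α + 2)).mul_continuousOn hcg.continuousOn
      refine h3.congr (fun y _ => ?_)
      have := hk y
      field_simp
    have iv : IntervalIntegrable (fun y => a + p * Real.log (1 + |y|) - g₁ y) volume α (α + 2) := by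
      refine IntervalIntegrable.sub ?_ ig
      apply Continuous.intervalIntegrable
      refine continuous_const.add (continuous_const.mul (Continuous.log (by fun_prop) fun y => ?_))
      have := abs_nonneg y
      positivity
    refine ⟨ig, hV1.trans ?_⟩
    have hα : α ≤ α + 2 := by linarith
    have h4 : ∫ y in α..(α + 2), (a + p * Real.log (1 + |y|) - g₁ y) / Real.cosh (Real.pi * y / W) ≤
        ∫ y : ℝ, (a + p * Real.log (1 + |y|) - g₁ y) / Real.cosh (Real.pi * y / W) := by
      rw [intervalIntegral.integral_of_le hα]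
      exact setIntegral_le_integral iw1 (Eventually.of_forall hw1)
    have h5 : 1 / Real.cosh (4 * Real.pi) * ∫ y in α..(α + 2), (a + p * Real.log (1 + |y|) - g₁ y) ≤
        ∫ y in α..(α + 2), (a + p * Real.log (1 + |y|) - g₁ y) / Real.cosh (Real.pi * y / W) := by
      rw [← intervalIntegral.integral_const_mul]
      apply intervalIntegral.integral_mono_on hα (iv.const_mul _) iw1.intervalIntegrable
      intro y hy
      have h6 : |y| ≤ 2 := abs_le.2 ⟨by linarith [hy.1], by linarith [hy.2]⟩
      have h7 : Real.cosh (Real.pi * y / W) ≤ Real.cosh (4 * Real.pi) := by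
        rw [Real.cosh_le_cosh, abs_div, abs_mul, abs_of_pos hpi, abs_of_pos hW0,
          abs_of_pos (by positivity : 0 < 4 * Real.pi), div_le_iff₀ hW0]
        nlinarith
      have h8 : 0 ≤ a + p * Real.log (1 + |y|) - g₁ y := by linarith [hg1 y]
      rw [one_div, inv_mul_eq_div]
      exact div_le_div_of_nonneg_left h8 (hk y) h7
    have h9 : 0 ≤ ∫ y in α..(α + 2), (a + p * Real.log (1 + |y|) - g₁ y) :=
      intervalIntegral.integral_nonneg hα fun y _ => by linarith [hg1 y]
    have hc4 : 0 < Real.cosh (4 * Real.pi) := Real.cosh_pos _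
    have h10 : 1 / 2 ≤ 1 / (2 * W) := by
      apply one_div_le_one_div_of_le (by positivity)
      linarith
    have h11 : 1 / (2 * Real.cosh (4 * Real.pi)) *
        ∫ y in α..(α + 2), (a + p * Real.log (1 + |y|) - g₁ y) ≤ 1 / (2 * W) *
        ∫ y : ℝ, (a + p * Real.log (1 + |y|) - g₁ y) / Real.cosh (Real.pi * y / W) := by
      calc 1 / (2 * Real.cosh (4 * Real.pi)) *
          ∫ y in α..(α + 2), (a + p * Real.log (1 + |y|) - g₁ y)
          = 1 / 2 * (1 / Real.cosh (4 * Real.pi) *
            ∫ y in α..(α + 2), (a + p * Real.log (1 + |y|) - g₁ y)) := by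
              field_simp
        _ ≤ 1 / (2 * W) * (1 / Real.cosh (4 * Real.pi) *
            ∫ y in α..(α + 2), (a + p * Real.log (1 + |y|) - g₁ y)) := by
              apply mul_le_mul_of_nonneg_right h10
              positivity
        _ ≤ _ := mul_le_mul_of_nonneg_left (h5.trans h4) hinv.le
    linarith

end Pool.Agent.N907.SC
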